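import Pool.Agent.Helper27.AD.Stmts
import Pool.Agent.Helper50.BSC.LOC
import Pool.Agent.Helper18.BSC.HEN
import Pool.Agent.Helper50.NF.NFI
import Pool.Agent.Helper41.NF.NRQ
import Pool.Agent.Helper68.ZL.VALU

/-! # MP_8312c9_nt, AdelicSections: module WPL -/

set_option autoImplicit false

open scoped Classical

namespace Pool.Agent.Helper27.AD

open Pool.Agent.Helper14.BSC Pool.Agent.Helper13.ZL Pool.Agent.Helper18.NF

/-- an element near `1` has an `n`-th root fixed by all automorphisms which preserve `W` and the element -/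
theorem wpl_root {Ω : Type} [Field Ω] [IsAlgClosed Ω] (W : ValuationSubring Ω) (x : Ω)
    (hx : W.valuation (x - 1) < 1) (n : ℕ) (hn : 0 < n) (hvn : W.valuation (n : Ω) = 1) :
    ∃ r : Ω, r ^ n = x ∧ ∀ g : Ω ≃+* Ω, (∀ y, g y ∈ W ↔ y ∈ W) → g x = x → g r = r := by
  let P : Polynomial Ω := Polynomial.X ^ n - Polynomial.C x
  have hmon : P.Monic := Polynomial.monic_X_pow_sub_C _ hn.ne'
  have hsplit := IsAlgClosed.splits P
  have hprod : P = (P.roots.map fun a => Polynomial.X - Polynomial.C a).prod := by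
    have := hsplit.eq_prod_roots
    rwa [hmon.leadingCoeff, map_one, one_mul] at this
  have heval : 1 - x = (P.roots.map fun a => 1 - a).prod := by
    have h1 : P.eval 1 = 1 - x := by simp [P]
    rw [← h1]
    conv_lhs => rw [hprod]
    rw [Polynomial.eval_multiset_prod, Multiset.map_map]
    simp
  have hx' : W.valuation (1 - x) < 1 := by
    rw [Valuation.map_sub_swap]
    exact hx
  obtain ⟨r, hr, hr1⟩ : ∃ r ∈ P.roots, W.valuation (1 - r) < 1 := by
    by_contra hcon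
    push Not at hcon
    have key : ∀ s : Multiset Ω, (∀ a ∈ s, 1 ≤ W.valuation (1 - a)) →
        1 ≤ W.valuation (s.map fun a => 1 - a).prod := by
      intro s
      induction s using Multiset.induction_on with
      | empty => intro _; simp
      | cons a s ih =>
        intro h
        rw [Multiset.map_cons, Multiset.prod_cons, map_mul]
        exact one_le_mul (h a (Multiset.mem_cons_self a s))
          (ih fun b hb => h b (Multiset.mem_cons_of_mem hb))
    have h1 := key _ hcon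
    rw [← heval] at h1
    exact not_lt.2 h1 hx'
  have hrn : r ^ n = x := by
    have h1 := (Polynomial.mem_roots'.1 hr).2
    have h2 : r ^ n - x = 0 := by simpa [P] using h1
    exact sub_eq_zero.1 h2
  have hr0 : r ≠ 0 := by
    intro h
    rw [h, sub_zero, map_one] at hr1
    exact lt_irrefl _ hr1
  have hvr := hen_near W hr1
  refine ⟨r, hrn, fun g hinv hgx => ?_⟩
  set u : Ω := g r / r with hu
  have hun : u ^ n = 1 := by
    rw [hu, div_pow, ← map_pow, hrn, hgx, ← hrn, div_self (pow_ne_zero _ hr0)]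
  have hu1 : W.valuation (1 - u) < 1 := by
    have e1 : r * (1 - u) = (r - 1) + (1 - g r) := by
      rw [hu, mul_sub, mul_div_cancel₀ _ hr0]
      ring
    have e2 : W.valuation (1 - u) = W.valuation (r * (1 - u)) := by
      rw [map_mul, hvr, one_mul]
    rw [e2, e1]
    refine Valuation.map_add_lt _ ?_ ?_
    · rw [Valuation.map_sub_swap]
      exact hr1
    · have e3 : 1 - g r = g (1 - r) := by
        rw [map_sub, map_one]
      rw [e3]
      exact hen_inv W g hinv _ hr1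
  by_contra hne
  have hu_ne : u ≠ 1 := by
    intro h
    exact hne ((div_eq_one_iff_eq hr0).1 (hu ▸ h))
  have h1 : ∑ i ∈ Finset.range n, u ^ i = 0 := by
    have h2 := geom_sum_mul u n
    rw [hun, sub_self] at h2
    rcases mul_eq_zero.1 h2 with h3 | h3
    · exact h3
    · exact absurd (sub_eq_zero.1 h3) hu_ne
  have hvu := hen_near W hu1
  have h2 : ∀ i : ℕ, W.valuation (1 - u ^ i) < 1 := by
    intro i
    induction i with
    | zero => simp
    | succ i ih =>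
      have e : 1 - u ^ (i + 1) = (1 - u ^ i) + u ^ i * (1 - u) := by ring
      rw [e]
      refine Valuation.map_add_lt _ ih ?_
      rw [map_mul, map_pow, hvu, one_pow, one_mul]
      exact hu1
  have h3 : ∀ m : ℕ, W.valuation ((m : Ω) - ∑ i ∈ Finset.range m, u ^ i) < 1 := by
    intro m
    induction m with
    | zero => simp
    | succ m ih =>
      rw [Finset.sum_range_succ]
      have e : ((m + 1 : ℕ) : Ω) - (∑ i ∈ Finset.range m, u ^ i + u ^ m) =
          ((m : Ω) - ∑ i ∈ Finset.range m, u ^ i) + (1 - u ^ m) := by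
        push_cast
        ring
      rw [e]
      exact Valuation.map_add_lt _ ih (h2 m)
  have h4 := h3 n
  rw [h1, sub_zero, hvn] at h4
  exact lt_irrefl _ h4

section

variable {k Ω : Type} [Field k] [NumberField k] [Field Ω] [Algebra k Ω] [IsAlgClosed Ω]
  {D : Sec k Ω} {p : ℕ} [hp : Fact p.Prime] {ι : Acl k Ω →+* ℂ_[p]} {W : ValuationSubring Ω}

theorem wpl_vp (hW : WOver D ι W) : W.valuation (p : Ω) < 1 := by
  have h1 : ¬ (((p : Acl k Ω)⁻¹ : Acl k Ω) : Ω) ∈ W := by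
    rw [hW.ov, map_inv₀, map_natCast, norm_inv, valu_p, inv_inv, not_le]
    exact_mod_cast hp.out.one_lt
  have h2 : (((p : Acl k Ω)⁻¹ : Acl k Ω) : Ω) = (p : Ω)⁻¹ := by
    push_cast
    rfl
  rw [← ValuationSubring.mem_nonunits_iff, ValuationSubring.mem_nonunits_iff_or]
  right
  rw [← h2]
  exact h1

theorem wpl_nq {q : ℕ} (hq : q.Prime) (hqp : q ≠ p) : ‖(q : ℂ_[p])‖ = 1 := by
  have h1 := PadicComplex.norm_extends' p (q : ℚ_[p])
  have h2 : ‖(q : ℚ_[p])‖ = 1 := by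
    rw [Padic.norm_natCast_eq_one_iff]
    exact (Nat.coprime_primes hp.out hq).2 (Ne.symm hqp)
  rw [h2] at h1
  rw [← h1]
  congr 1
  exact (map_natCast (algebraMap ℚ_[p] ℂ_[p]) q).symm

theorem wpl_vq (hW : WOver D ι W) {q : ℕ} (hq : q.Prime) (hqp : q ≠ p) :
    W.valuation (q : Ω) = 1 := by
  have h1 : (((q : Acl k Ω)⁻¹ : Acl k Ω) : Ω) ∈ W := by
    rw [hW.ov, map_inv₀, map_natCast, norm_inv, wpl_nq hq hqp, inv_one]
  have h2 : (((q : Acl k Ω)⁻¹ : Acl k Ω) : Ω) = (q : Ω)⁻¹ := by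
    push_cast
    rfl
  rw [h2] at h1
  have h3 : (q : Ω) ∈ W := by exact_mod_cast natCast_mem W q
  have h4 : W.valuation (q : Ω) ≤ 1 := (W.valuation_le_one_iff _).2 h3
  have h5 : W.valuation (q : Ω)⁻¹ ≤ 1 := (W.valuation_le_one_iff _).2 h1
  have : CharZero Ω := charZero_of_injective_algebraMap (algebraMap k Ω).injective
  have hq0 : W.valuation (q : Ω) ≠ 0 := (Valuation.ne_zero_iff _).2 (by exact_mod_cast hq.ne_zero)
  rw [map_inv₀, inv_le_one₀ (zero_lt_iff.2 hq0)] at h5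
  exact le_antisymm h4 h5

theorem wpl_core (hK : ST_KUM) (hB : ST_BOT) (hE : ST_EFIN) (hW : WOver D ι W)
    (P : Place D p (ι.comp (algebraMap k (Acl k Ω)))) (z : LL D)
    (hz : W.valuation ((z : Ω) - 1) < 1) (hC : z ∈ P.C) (h0 : P.φ ⟨z, hC⟩ ≠ 0) :
    ‖P.φ ⟨z, hC⟩‖ = 1 := by
  obtain ⟨E, hEf, hEk⟩ := nfi_aux k p (ι.comp (algebraMap k (Acl k Ω)))
  obtain ⟨e1, N1, he1, -, hv1⟩ := hE p E hEf
  obtain ⟨e2, N2, he2, -, hv2⟩ := hE p P.E P.finE
  have hp1 : (1 : ℝ) < p := by exact_mod_cast hp.out.one_lt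
  have hp0 : (0 : ℝ) < p := by linarith
  have hzne : z ≠ 0 := fun h => h0 ((P.ker ⟨z, hC⟩).2 (Or.inl h))
  have hφ : 0 < ‖P.φ ⟨z, hC⟩‖ := norm_pos_iff.2 h0
  have key : ∀ q : ℕ, q.Prime → q ≠ p → ∃ m : ℤ,
      ‖P.φ ⟨z, hC⟩‖ ^ (e1 * e2) = (p : ℝ) ^ ((q : ℤ) * m) := by
    intro q hq hqp
    obtain ⟨r, hr, hfix⟩ := wpl_root W (z : Ω) hz q hq.pos (wpl_vq hW hq hqp)
    have hrN : r ∈ NN D {x : Acl k Ω | ι x ∈ E} := by
      intro g hg
      have hiso := fun x => loc_iso ι E hEf hEk g (fun y hy => hg y hy) x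
      exact hfix (D.s g).toRingEquiv (fun y => hW.stb g hiso y)
        (z.2 g (by intro a ha; exact absurd ha (Set.notMem_empty a)))
    obtain ⟨c, hc0, g, hxc⟩ := nrq_kum hK hB D z hzne q hq.pos
    have hg0 : g ≠ 0 := by
      rintro rfl
      rw [zero_pow hq.ne_zero, mul_zero] at hxc
      exact hzne hxc
    have hg0' : (g : Ω) ≠ 0 := fun h => hg0 (Subtype.ext h)
    obtain ⟨w, hw, y, hy, hyx, hσ⟩ := P.kum ⟨z, hC⟩ h0 q hq.pos _ hφ c g hxc
    have hpow : (r / (g : Ω)) ^ q = algebraMap k Ω c := by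
      have h1 : (z : Ω) = algebraMap k Ω c * (g : Ω) ^ q := congrArg Subtype.val hxc
      rw [div_pow, hr, h1, mul_div_assoc, div_self (pow_ne_zero _ hg0'), mul_one]
    have halg : IsAlgebraic k (r / (g : Ω)) := by
      apply IsAlgebraic.of_pow hq.pos
      rw [hpow]
      exact isAlgebraic_algebraMap c
    have hN : r / (g : Ω) ∈ NN D {x : Acl k Ω | ι x ∈ E} :=
      div_mem hrN (NN_le D (by intro a _ b hb; exact absurd hb (Set.notMem_empty b)) g.2)
    let h : Acl k Ω := ⟨r / (g : Ω), (mem_algebraicClosure_iff).2 halg⟩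
    have hF : ι h ∈ E := (loc_FF ι E hEk h).1 (coe_mem_NN.1 hN)
    have hhq : h ^ q = algebraMap k (Acl k Ω) c := Subtype.ext hpow
    have hιq : (ι h) ^ q = ι (algebraMap k (Acl k Ω) c) := by rw [← map_pow, hhq]
    have hσc : ι (algebraMap k (Acl k Ω) c) ≠ 0 := by
      rw [Ne, map_eq_zero, map_eq_zero]
      exact hc0
    have hh0 : ι h ≠ 0 := by
      intro h'
      rw [h', zero_pow hq.ne_zero] at hιq
      exact hσc hιq.symm
    have hσ' : ι (algebraMap k (Acl k Ω) c) = y * w ^ q := hσ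
    have hw0 : w ≠ 0 := by
      rintro rfl
      rw [zero_pow hq.ne_zero, mul_zero] at hσ'
      exact hσc hσ'
    obtain ⟨⟨j1, hj1⟩, -⟩ := hv1 _ hF hh0
    obtain ⟨⟨j2, hj2⟩, -⟩ := hv2 _ hw hw0
    have hn : ‖ι h‖ ^ q = ‖P.φ ⟨z, hC⟩‖ * ‖w‖ ^ q := by
      rw [← norm_pow, hιq, hσ', norm_mul, norm_pow, valu_near hyx]
    refine ⟨j1 * e2 - j2 * e1, ?_⟩
    have h1 : (‖ι h‖ ^ q) ^ (e1 * e2) = (p : ℝ) ^ ((q : ℤ) * (j1 * e2)) := by
      calc (‖ι h‖ ^ q) ^ (e1 * e2) = (‖ι h‖ ^ e1) ^ (q * e2) := by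
            rw [← pow_mul, ← pow_mul]; congr 1; ring
        _ = _ := by
            rw [hj1, ← zpow_natCast, ← zpow_mul]; congr 1; push_cast; ring
    have h2 : (‖w‖ ^ q) ^ (e1 * e2) = (p : ℝ) ^ ((q : ℤ) * (j2 * e1)) := by
      calc (‖w‖ ^ q) ^ (e1 * e2) = (‖w‖ ^ e2) ^ (q * e1) := by
            rw [← pow_mul, ← pow_mul]; congr 1; ring
        _ = _ := by
            rw [hj2, ← zpow_natCast, ← zpow_mul]; congr 1; push_cast; ring
    have h3 : (p : ℝ) ^ ((q : ℤ) * (j1 * e2)) =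
        ‖P.φ ⟨z, hC⟩‖ ^ (e1 * e2) * (p : ℝ) ^ ((q : ℤ) * (j2 * e1)) := by
      rw [← h1, ← h2, hn, mul_pow]
    have h4 : (q : ℤ) * (j1 * e2 - j2 * e1) = (q : ℤ) * (j1 * e2) - (q : ℤ) * (j2 * e1) := by ring
    rw [h4, zpow_sub₀ hp0.ne', h3, mul_div_assoc, div_self (zpow_ne_zero _ hp0.ne'), mul_one]
  obtain ⟨q0, hq0, hq0p⟩ := Nat.exists_infinite_primes (p + 1)
  obtain ⟨m0, hm0⟩ := key q0 hq0p (by omega)
  obtain ⟨q, hq, hqp⟩ := Nat.exists_infinite_primes (p + 1 + ((q0 : ℤ) * m0).natAbs)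
  obtain ⟨m, hm⟩ := key q hqp (by omega)
  have hi : (q : ℤ) * m = (q0 : ℤ) * m0 :=
    zpow_right_injective₀ hp0 hp1.ne'
      (show (p : ℝ) ^ ((q : ℤ) * m) = (p : ℝ) ^ ((q0 : ℤ) * m0) by rw [← hm, ← hm0])
  have hi0 : (q0 : ℤ) * m0 = 0 := by
    have h1 : (q : ℤ) ∣ (q0 : ℤ) * m0 := ⟨m, hi.symm⟩
    have h2 : q ∣ ((q0 : ℤ) * m0).natAbs := Int.natCast_dvd.1 h1
    by_contra hne
    have h3 := Nat.le_of_dvd (Int.natAbs_pos.2 hne) h2
    omega
  rw [hi0, zpow_zero] at hm0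
  exact (pow_eq_one_iff_of_nonneg (norm_nonneg _) (Nat.mul_pos he1 he2).ne').1 hm0

end

theorem st_WPL (hK : ST_KUM) (hB : ST_BOT) (hE : ST_EFIN) : ST_WPL := by
  intro k Ω _ _ _ _ _ D p hp ι W hW P
  have hpr : (0 : ℝ) < p := by exact_mod_cast hp.out.pos
  have hvp := wpl_vp hW
  have main : ∀ f : LL D, (f : Ω) ∈ W → ∀ h : f ∈ P.C, ‖P.φ ⟨f, h⟩‖ ≤ 1 := by
    intro f hf h
    by_contra hlt
    push Not at hlt
    obtain ⟨m, hm⟩ := pow_unbounded_of_one_lt (p : ℝ) hlt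
    set t : P.C := (p : P.C) * ⟨f, h⟩ ^ m with ht
    have hφt : P.φ t = (p : ℂ_[p]) * P.φ ⟨f, h⟩ ^ m := by
      rw [ht, map_mul, map_pow, map_natCast]
    have hnt : 1 < ‖P.φ t‖ := by
      rw [hφt, norm_mul, norm_pow, valu_p, inv_mul_eq_div, lt_div_iff₀ hpr, one_mul]
      exact hm
    have hnz : ‖P.φ (1 + t)‖ = ‖P.φ t‖ := by
      apply valu_near
      rw [map_add, map_one, add_sub_cancel_right, norm_one]
      exact hnt
    have h1 : P.φ ⟨((1 + t : P.C) : LL D), (1 + t : P.C).2⟩ ≠ 0 := by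
      intro h'
      have h2 : ‖P.φ (1 + t)‖ = 0 := by
        rw [norm_eq_zero]
        exact h'
      rw [hnz] at h2
      linarith
    have h2 : W.valuation ((((1 + t : P.C) : LL D) : Ω) - 1) < 1 := by
      have h3 : (((1 + t : P.C) : LL D) : Ω) - 1 = (p : Ω) * (f : Ω) ^ m := by
        rw [ht]
        push_cast
        ring
      rw [h3, map_mul, map_pow]
      calc W.valuation (p : Ω) * W.valuation (f : Ω) ^ m ≤ W.valuation (p : Ω) * 1 :=
            mul_le_mul' le_rfl (pow_le_one₀ zero_le ((W.valuation_le_one_iff _).2 hf))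
        _ < 1 := by rw [mul_one]; exact hvp
    have h3 := wpl_core hK hB hE hW P ((1 + t : P.C) : LL D) h2 (1 + t : P.C).2 h1
    have h4 : ‖P.φ (1 + t)‖ = 1 := h3
    rw [hnz] at h4
    linarith
  intro f hf
  by_cases h : f ∈ P.C
  · exact ⟨h, main f hf h⟩
  · exfalso
    have hf0 : f ≠ 0 := by
      rintro rfl
      exact h (zero_mem _)
    have hi : f⁻¹ ∈ P.C := by
      rcases P.C.mem_or_inv_mem f with h1 | h1
      · exact absurd h1 h
      · exact h1
    have hφi : P.φ ⟨f⁻¹, hi⟩ = 0 := by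
      rw [P.ker]
      right
      show (f⁻¹)⁻¹ ∉ P.C
      rw [inv_inv]
      exact h
    set u : P.C := ⟨f⁻¹, hi⟩ + (p : P.C) with hu
    have hφu : P.φ u = (p : ℂ_[p]) := by
      rw [hu, map_add, hφi, zero_add, map_natCast]
    have hpC : (p : ℂ_[p]) ≠ 0 := by
      rw [← norm_pos_iff, valu_p]
      exact inv_pos.2 hpr
    have hu1 : P.φ u ≠ 0 := by rw [hφu]; exact hpC
    have hu2 := mt (P.ker u).2 hu1
    push Not at hu2
    obtain ⟨hu0, hui⟩ := hu2
    have hmul : u * ⟨(u : LL D)⁻¹, hui⟩ = 1 := by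
      apply Subtype.ext
      show (u : LL D) * (u : LL D)⁻¹ = 1
      exact mul_inv_cancel₀ hu0
    have hφ1 : ‖P.φ ⟨(u : LL D)⁻¹, hui⟩‖ = p := by
      have h1 := congrArg (fun x => ‖P.φ x‖) hmul
      simp only [map_mul, map_one, norm_mul, norm_one] at h1
      rw [hφu, valu_p] at h1
      exact ((inv_mul_eq_one₀ hpr.ne').1 h1).symm
    have hW1 : (((u : LL D)⁻¹ : LL D) : Ω) ∈ W := by
      have hf0' : (f : Ω) ≠ 0 := fun h' => hf0 (Subtype.ext h')
      have e1 : (((u : LL D)⁻¹ : LL D) : Ω) = (f : Ω) / (1 + (p : Ω) * (f : Ω)) := by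
        have e2 : ((u : LL D) : Ω) = (f : Ω)⁻¹ + (p : Ω) := by
          rw [hu]
          push_cast
          rfl
        have e3 : (((u : LL D)⁻¹ : LL D) : Ω) = ((u : LL D) : Ω)⁻¹ := rfl
        have e4 : (f : Ω)⁻¹ + (p : Ω) = (1 + (p : Ω) * (f : Ω)) / (f : Ω) := by
          field_simp
        rw [e3, e2, e4, inv_div]
      have e5 : W.valuation (1 + (p : Ω) * (f : Ω)) = 1 := by
        apply hen_near
        have e6 : 1 - (1 + (p : Ω) * (f : Ω)) = -((p : Ω) * (f : Ω)) := by ring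
        rw [e6, Valuation.map_neg, map_mul]
        calc W.valuation (p : Ω) * W.valuation (f : Ω) ≤ W.valuation (p : Ω) * 1 :=
              mul_le_mul' le_rfl ((W.valuation_le_one_iff _).2 hf)
          _ < 1 := by rw [mul_one]; exact hvp
      rw [← W.valuation_le_one_iff, e1, map_div₀, e5, div_one]
      exact (W.valuation_le_one_iff _).2 hf
    have h2 := main ((u : LL D)⁻¹) hW1 hui
    rw [hφ1] at h2
    have h3 : (1 : ℝ) < p := by exact_mod_cast hp.out.one_lt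
    linarith

end Pool.Agent.Helper27.AD
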