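import Pool.Agent.Helper27.AD.Stmts3
import Pool.Agent.Helper41.NF.NRQ
import Pool.Agent.Helper68.ZL.VALU

/-! # MP_8312c9_nt, AdelicSections: module NRL -/

set_option autoImplicit false

open scoped Classical

namespace Pool.Agent.Helper27.AD

open Pool.Agent.Helper14.BSC Pool.Agent.Helper13.ZL Pool.Agent.Helper18.NF

theorem st_NRL (hK : ST_KUM) (hR : ST_ROOT) (hB : ST_BOT) (hE : ST_EFIN) : ST_NRL := by
  intro k k₁ Ω _ _ _ _ _ _ _ _ _ D v p hp T hov P x hx hφ0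
  choose e N he hN hEN using fun i => hE p (P i).E (P i).finE
  have hp0 : (0 : ℝ) < p := by exact_mod_cast hp.out.pos
  have hx0 : x ≠ 0 := by
    have i0 : Fin T.n := ⟨0, T.pos⟩
    exact fun h => hφ0 i0 (((P i0).ker ⟨x, hx i0⟩).2 (Or.inl h))
  set d : ℕ := ∏ i, e i with hd
  have hd0 : 0 < d := Finset.prod_pos fun i _ => he i
  have hpow : ∀ i, ∀ w ∈ (P i).E, w ≠ 0 → ∃ j : ℤ, ‖w‖ ^ d = (p : ℝ) ^ j := by
    intro i w hw hw0
    obtain ⟨⟨j, hj⟩, _⟩ := hEN i w hw hw0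
    obtain ⟨q, hq⟩ := Finset.dvd_prod_of_mem e (Finset.mem_univ i)
    refine ⟨j * q, ?_⟩
    rw [hd, hq, pow_mul, hj, ← zpow_natCast, ← zpow_mul]
  set V : ℝ := ∏ i, ‖(P i).φ ⟨x, hx i⟩‖ with hV
  have hV0 : 0 < V := Finset.prod_pos fun i _ => norm_pos_iff.2 (hφ0 i)
  have key : ∀ n : ℕ, 0 < n → ∀ (c : k) (g : LL D), c ≠ 0 →
      x = algebraMap k (LL D) c * g ^ (d * n) →
      ∃ J : ℤ, ‖T.j (Algebra.norm k₁ c)‖ = V * (p : ℝ) ^ ((n : ℤ) * J) := by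
    intro n hn c g hc hxc
    have hj : ∀ i, ∃ j : ℤ, ‖T.σ i c‖ = ‖(P i).φ ⟨x, hx i⟩‖ * (p : ℝ) ^ ((n : ℤ) * j) := by
      intro i
      obtain ⟨w, hw, y, hy, hyv, hcy⟩ := (P i).kum ⟨x, hx i⟩ (hφ0 i) (d * n)
        (Nat.mul_pos hd0 hn) _ (norm_pos_iff.2 (hφ0 i)) c g hxc
      have hσc : T.σ i c ≠ 0 := by rw [Ne, map_eq_zero]; exact hc
      have hw0 : w ≠ 0 := by
        rintro rfl
        rw [hcy, zero_pow (Nat.mul_pos hd0 hn).ne', mul_zero] at hσc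
        exact hσc rfl
      obtain ⟨j, hj⟩ := hpow i w hw hw0
      refine ⟨j, ?_⟩
      rw [hcy, norm_mul, valu_near hyv, norm_pow, pow_mul, hj, ← zpow_natCast, ← zpow_mul,
        mul_comm j]
    choose j hj using hj
    refine ⟨∑ i, j i, ?_⟩
    rw [← T.norm c, norm_prod, ← nrq_prod _ _ _ _ hp0.ne', hV, ← Finset.prod_mul_distrib]
    exact Finset.prod_congr rfl fun i _ => hj i
  have hpj : ∀ J : ℤ, ‖T.j ((p : k₁) ^ J)‖ = (p : ℝ) ^ (-J) := by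
    intro J
    rw [map_zpow₀, map_natCast, norm_zpow, valu_p, inv_zpow, zpow_neg]
  have hpk : (p : k₁) ≠ 0 := by exact_mod_cast hp.out.ne_zero
  obtain ⟨r, hr0, hr1, hrV⟩ : ∃ r : k₁, r ≠ 0 ∧
      ((∀ i, ‖(P i).φ ⟨x, hx i⟩‖ = 1) → r = 1) ∧ ‖T.j r‖ = V := by
    by_cases hall : ∀ i, ‖(P i).φ ⟨x, hx i⟩‖ = 1
    · refine ⟨1, one_ne_zero, fun _ => rfl, ?_⟩
      rw [map_one, norm_one, hV, Finset.prod_eq_one fun i _ => hall i]
    · obtain ⟨c1, hc1, g1, hx1⟩ := nrq_kum hK hB D x hx0 (d * 1) (by omega)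
      obtain ⟨J1, hJ1⟩ := key 1 one_pos c1 g1 hc1 hx1
      refine ⟨Algebra.norm k₁ c1 * (p : k₁) ^ J1, mul_ne_zero ?_ (zpow_ne_zero _ hpk),
        fun h => absurd h hall, ?_⟩
      · rw [Ne, Algebra.norm_eq_zero_iff]; exact hc1
      · rw [map_mul, norm_mul, hpj, hJ1, mul_assoc, ← zpow_add₀ hp0.ne']
        have h1 : ((1 : ℕ) : ℤ) * J1 + -J1 = 0 := by push_cast; ring
        rw [h1, zpow_zero, mul_one]
  refine ⟨r, hr0, hr1, ?_⟩
  intro n hn c g hc hxc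
  obtain ⟨c', hc', g', hx'⟩ := nrq_kum hK hB D x hx0 (d * n) (Nat.mul_pos hd0 hn)
  obtain ⟨J, hJ⟩ := key n hn c' g' hc' hx'
  have hg0 : g ≠ 0 := by
    rintro rfl
    rw [zero_pow hn.ne', mul_zero] at hxc
    exact hx0 hxc
  have hg'0 : g' ≠ 0 := by
    rintro rfl
    rw [zero_pow (Nat.mul_pos hd0 hn).ne', mul_zero] at hx'
    exact hx0 hx'
  have hc'L : algebraMap k (LL D) c' ≠ 0 := by
    rw [Ne, map_eq_zero]; exact hc'
  have h2 : algebraMap k (LL D) c' * g' ^ (d * n) = algebraMap k (LL D) c * g ^ n := by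
    rw [← hx', ← hxc]
  obtain ⟨a, ha⟩ := nrq_root hR hB D n hn (g' ^ d / g) (c / c') (by
    rw [div_pow, ← pow_mul, map_div₀, div_eq_div_iff (pow_ne_zero _ hg0) hc'L]
    rw [mul_comm, h2])
  have ha0 : a ≠ 0 := by
    rintro rfl
    rw [map_zero, div_eq_zero_iff] at ha
    rcases ha with h | h
    · exact pow_ne_zero _ hg'0 h
    · exact hg0 h
  have hca : c = c' * a ^ n := by
    apply (algebraMap k (LL D)).injective
    rw [map_mul, map_pow, ← ha, div_pow, ← pow_mul, mul_div_assoc', h2,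
      mul_div_assoc, div_self (pow_ne_zero _ hg0), mul_one]
  have hNa : Algebra.norm k₁ a ≠ 0 := by
    rw [Ne, Algebra.norm_eq_zero_iff]; exact ha0
  refine ⟨(Algebra.norm k₁ a)⁻¹ * (p : k₁) ^ J, ?_⟩
  rw [valu_one hov]
  have hA : 0 < ‖T.j (Algebra.norm k₁ a)‖ := by
    rw [norm_pos_iff, Ne, map_eq_zero]; exact hNa
  have h3 : ‖T.j ((Algebra.norm k₁ a)⁻¹ * (p : k₁) ^ J)‖ ^ n =
      (‖T.j (Algebra.norm k₁ a)‖ ^ n)⁻¹ * (p : ℝ) ^ (-((n : ℤ) * J)) := by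
    rw [map_mul, norm_mul, hpj, map_inv₀, norm_inv, mul_pow, inv_pow, ← zpow_natCast ((p : ℝ) ^ (-J)),
      ← zpow_mul]
    congr 2
    ring
  rw [map_mul, map_div₀, map_pow, norm_mul, norm_div, norm_pow, h3, hrV, hca, map_mul, map_pow,
    map_mul, map_pow, norm_mul, norm_pow, hJ, zpow_neg]
  have h4 : (p : ℝ) ^ ((n : ℤ) * J) ≠ 0 := zpow_ne_zero _ hp0.ne'
  have h5 : ‖T.j (Algebra.norm k₁ a)‖ ^ n ≠ 0 := pow_ne_zero _ hA.ne'
  field_simp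

end Pool.Agent.Helper27.AD
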